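import Pool.Agent.helper82.T6.SpecL2

/-!
# Row `t6:EC` (MP_16912e_nt): case (alpha)
-/

set_option autoImplicit false

namespace Pool.Agent.T6

open Finset Pool.Agent.helper3.FT

/-! ### The part of `d` in the blocks `≥ j` -/

/-- the part of `d` in the blocks `≥ j` -/
def EC_co (j d : ℕ) : ℕ := ∏ p ∈ d.primeFactors.filter (fun p => ¬ Nat.log 2 p < j), p ^ d.factorization p

theorem EC_mul (j d : ℕ) (hd : 1 ≤ d) : prt j d * EC_co j d = d := by
  unfold prt EC_co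
  rw [Finset.prod_filter_mul_prod_filter_not]
  exact Nat.prod_factorization_pow_eq_self (by omega)

theorem EC_dvd_prt {j d p : ℕ} (hp : p.Prime) (h : p ∣ prt j d) : p ∣ d ∧ Nat.log 2 p < j := by
  unfold prt at h
  obtain ⟨i, hi, hpi⟩ := (hp.prime.dvd_finset_prod_iff _).1 h
  have h1 := hp.dvd_of_dvd_pow hpi
  rw [mem_filter] at hi
  have hip := Nat.prime_of_mem_primeFactors hi.1
  have h2 : p = i := (Nat.prime_dvd_prime_iff_eq hp hip).1 h1
  subst h2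
  exact ⟨Nat.dvd_of_mem_primeFactors hi.1, hi.2⟩

theorem EC_dvd_co {j d p : ℕ} (hp : p.Prime) (h : p ∣ EC_co j d) : p ∣ d ∧ ¬ Nat.log 2 p < j := by
  unfold EC_co at h
  obtain ⟨i, hi, hpi⟩ := (hp.prime.dvd_finset_prod_iff _).1 h
  have h1 := hp.dvd_of_dvd_pow hpi
  rw [mem_filter] at hi
  have hip := Nat.prime_of_mem_primeFactors hi.1
  have h2 : p = i := (Nat.prime_dvd_prime_iff_eq hp hip).1 h1
  subst h2
  exact ⟨Nat.dvd_of_mem_primeFactors hi.1, hi.2⟩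

theorem EC_coprime (j d : ℕ) : Nat.Coprime (prt j d) (EC_co j d) := by
  apply Nat.Coprime.symm
  apply Nat.coprime_of_dvd
  intro k hk h1 h2
  exact (EC_dvd_co hk h1).2 (EC_dvd_prt hk h2).2

theorem EC_pos (j d : ℕ) (hd : 1 ≤ d) : 1 ≤ prt j d ∧ 1 ≤ EC_co j d := by
  have h := EC_mul j d hd
  constructor
  · rcases Nat.eq_zero_or_pos (prt j d) with h0 | h0
    · rw [h0] at h; omega
    · exact h0
  · rcases Nat.eq_zero_or_pos (EC_co j d) with h0 | h0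
    · rw [h0] at h; omega
    · exact h0

/-! ### Divisors with large primes -/

theorem EC_pow_card (k : ℕ) (M : Multiset ℕ) (hM : ∀ p ∈ M, k ≤ p) : k ^ (Multiset.card M) ≤ M.prod := by
  induction M using Multiset.induction_on with
  | empty => simp
  | cons a M ih =>
    rw [Multiset.card_cons, Multiset.prod_cons, pow_succ, mul_comm]
    exact Nat.mul_le_mul (hM a (Multiset.mem_cons_self a M)) (ih (fun p hp => hM p (Multiset.mem_cons_of_mem hp)))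

theorem EC_div (N k n e : ℕ) (hN : N ≠ 0) (hNe : N ≤ 2 ^ e) (hn : ∀ L : ℕ, k * L ≤ e → L ≤ n) (D : Finset ℕ)
    (hD : ∀ h ∈ D, h ∣ N ∧ ∀ p : ℕ, p.Prime → p ∣ h → 2 ^ k ≤ p) :
    D.card ≤ 2 ^ n ∧ ∀ h ∈ D, h.primeFactors.card ≤ n := by
  obtain ⟨M, hM⟩ : ∃ M : Multiset ℕ, M = (N.primeFactorsList : Multiset ℕ).filter (fun p => 2 ^ k ≤ p) := ⟨_, rfl⟩
  have h1 : ∀ p ∈ M, 2 ^ k ≤ p := by
    intro p hp
    rw [hM] at hp
    exact Multiset.of_mem_filter hp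
  have h2 := EC_pow_card (2 ^ k) M h1
  have h3 : M.prod ∣ N := by
    have h4 : M.prod ∣ (N.primeFactorsList : Multiset ℕ).prod := by
      rw [hM]
      exact Multiset.prod_dvd_prod_of_le (Multiset.filter_le _ _)
    rw [Multiset.prod_coe, Nat.prod_primeFactorsList hN] at h4
    exact h4
  have h5 : Multiset.card M ≤ n := by
    apply hn
    have h6 : 2 ^ (k * Multiset.card M) ≤ 2 ^ e := by
      rw [pow_mul]
      exact h2.trans ((Nat.le_of_dvd (Nat.pos_of_ne_zero hN) h3).trans hNe)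
    exact (Nat.pow_le_pow_iff_right (by norm_num)).1 h6
  have h7 : ∀ h ∈ D, (h.primeFactorsList : Multiset ℕ) ≤ M := by
    intro h hh
    obtain ⟨ha, hb⟩ := hD h hh
    rw [hM, Multiset.le_filter]
    refine ⟨?_, ?_⟩
    · rw [Multiset.coe_le]
      exact (Nat.primeFactorsList_sublist_of_dvd ha hN).subperm
    · intro p hp
      rw [Multiset.mem_coe] at hp
      exact hb p (Nat.prime_of_mem_primeFactorsList hp) (Nat.dvd_of_mem_primeFactorsList hp)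
  constructor
  · have h8 : D ⊆ (M.powerset.map Multiset.prod).toFinset := by
      intro h hh
      rw [Multiset.mem_toFinset, Multiset.mem_map]
      refine ⟨(h.primeFactorsList : Multiset ℕ), Multiset.mem_powerset.2 (h7 h hh), ?_⟩
      rw [Multiset.prod_coe, Nat.prod_primeFactorsList]
      intro h0
      rw [h0] at hh
      have := (hD 0 hh).1
      exact hN (Nat.eq_zero_of_zero_dvd this)
    calc D.card ≤ _ := card_le_card h8
      _ ≤ Multiset.card (M.powerset.map Multiset.prod) := Multiset.toFinset_card_le _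
      _ = 2 ^ Multiset.card M := by rw [Multiset.card_map, Multiset.card_powerset]
      _ ≤ 2 ^ n := Nat.pow_le_pow_right (by norm_num) h5
  · intro h hh
    have h9 : h.primeFactors.card ≤ h.primeFactorsList.length := by
      unfold Nat.primeFactors
      exact List.toFinset_card_le _
    have h10 := Multiset.card_le_card (h7 h hh)
    rw [Multiset.coe_card] at h10
    omega

/-! ### The lattice for another representative -/

theorem EC_congr (hN3 : N3_stmt) {d r r' : ℕ} {v : V4} (h : InG d r v) (hr : r' ≡ r [MOD d]) : InG d r' v := by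
  have h1 : InG 1 0 v := ⟨by simp, by simp⟩
  have := hN3 d 1 r 0 r' v (Nat.coprime_one_right d) h h1 hr (Nat.modEq_one)
  rwa [mul_one] at this

theorem EC_sub {d d' r : ℕ} {v : V4} (h : InG d r v) (hd : d' ∣ d) : InG d' r v := by
  have h1 : (d' : ℤ) ∣ (d : ℤ) := Int.natCast_dvd_natCast.2 hd
  exact ⟨h1.trans h.1, h1.trans h.2⟩

/-! ### The fibres -/

theorem EC_fibre (hN3 : N3_stmt) (hNRT : NRT_stmt) (j k n e q ρ : ℕ) (v : V4) (hRV : RV v ≠ 0)
    (hRVb : (RV v).natAbs ≤ 2 ^ e) (hn : ∀ L : ℕ, k * L ≤ e → L ≤ n) (G : Finset (ℕ × ℕ))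
    (hG : ∀ p ∈ G, 1 ≤ p.1 ∧ p.2 < p.1 ∧ Nat.Coprime p.2 p.1 ∧ Rgh 5 p.1 ∧ InG p.1 p.2 v ∧ Pm p.1 v ∧
      (p.1 : ℤ) ∣ RV v ∧ prt j p.1 = q ∧ p.2 ≡ ρ [MOD q] ∧
      ∀ l : ℕ, l.Prime → l ∣ p.1 → Nat.log 2 l < j ∨ 2 ^ k ≤ l) :
    G.card ≤ 3 ^ n * 2 ^ n := by
  classical
  have hD := EC_div (RV v).natAbs k n e (Int.natAbs_ne_zero.2 hRV) hRVb hn (G.image (fun p => EC_co j p.1)) (by
    intro h hh
    rw [mem_image] at hh
    obtain ⟨p, hp, rfl⟩ := hh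
    obtain ⟨g1, g2, g3, g4, g5, g6, g7, g8, g9, g10⟩ := hG p hp
    constructor
    · have h1 : EC_co j p.1 ∣ p.1 := Dvd.intro_left _ (EC_mul j p.1 g1)
      exact h1.trans (by rw [← Int.natCast_dvd]; exact g7)
    · intro l hl hld
      have h2 := EC_dvd_co hl hld
      rcases g10 l hl h2.1 with h3 | h3
      · exact absurd h3 h2.2
      · exact h3)
  refine (Finset.card_le_mul_card_image (f := fun p => EC_co j p.1) G (3 ^ n) ?_).trans
    (Nat.mul_le_mul_left _ hD.1)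
  intro h hh
  have hω := hD.2 h hh
  rw [mem_image] at hh
  obtain ⟨p0, hp0, hp0h⟩ := hh
  obtain ⟨g1, g2, g3, g4, g5, g6, g7, g8, g9, g10⟩ := hG p0 hp0
  have hdv : ∀ p ∈ G, EC_co j p.1 = h → h ∣ p.1 := by
    intro p hp hph
    rw [← hph]
    exact Dvd.intro_left _ (EC_mul j p.1 (hG p hp).1)
  have hd0 : h ∣ p0.1 := hdv p0 hp0 hp0h
  have hh1 : 1 ≤ h := by rw [← hp0h]; exact (EC_pos j p0.1 g1).2
  have hR := hNRT h v hh1 (fun l hl hld => g4 l hl (hld.trans hd0)) (fun l hl hld => g6 l hl (hld.trans hd0))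
  refine le_trans ?_ (hR.trans (Nat.pow_le_pow_right (by norm_num) hω))
  apply Finset.card_le_card_of_injOn (fun p => p.2 % h)
  · intro p hp
    rw [Finset.mem_coe, mem_filter] at hp
    obtain ⟨hpG, hph⟩ := hp
    obtain ⟨k1, k2, k3, k4, k5, k6, k7, k8, k9, k10⟩ := hG p hpG
    have hdp := hdv p hpG hph
    rw [Finset.mem_coe, mem_filter, mem_range]
    refine ⟨Nat.mod_lt _ hh1, ?_, ?_⟩
    · have h1 : Nat.Coprime p.2 h := Nat.Coprime.coprime_dvd_right hdp k3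
      unfold Nat.Coprime at *
      rw [← Nat.gcd_rec, Nat.gcd_comm]
      exact h1
    · exact EC_congr hN3 (EC_sub k5 hdp) (Nat.mod_modEq _ _)
  · intro p hp p' hp' heq
    rw [Finset.mem_coe, mem_filter] at hp hp'
    obtain ⟨hpG, hph⟩ := hp
    obtain ⟨hpG', hph'⟩ := hp'
    obtain ⟨k1, k2, k3, k4, k5, k6, k7, k8, k9, k10⟩ := hG p hpG
    obtain ⟨l1, l2, l3, l4, l5, l6, l7, l8, l9, l10⟩ := hG p' hpG'
    have e1 : q * h = p.1 := by rw [← k8, ← hph]; exact EC_mul j p.1 k1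
    have e2 : q * h = p'.1 := by rw [← l8, ← hph']; exact EC_mul j p'.1 l1
    have e3 : Nat.Coprime q h := by rw [← k8, ← hph]; exact EC_coprime j p.1
    have e4 : p.2 ≡ p'.2 [MOD h] := heq
    have e5 : p.2 ≡ p'.2 [MOD q] := k9.trans l9.symm
    have e6 : p.2 ≡ p'.2 [MOD q * h] := (Nat.modEq_and_modEq_iff_modEq_mul e3).1 ⟨e5, e4⟩
    have e7 : p.2 = p'.2 := Nat.ModEq.eq_of_lt_of_lt e6 (by rw [e1]; exact k2) (by rw [e2]; exact l2)
    exact Prod.ext (by rw [← e1, ← e2]) e7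

/-! ### The resultant -/

theorem EC_RV (b V : ℝ) (v : V4) (hb : 1 ≤ b) (hv : nrm b v ≤ V) : |(RV v : ℝ)| ≤ 3842 * V ^ 6 := by
  obtain ⟨A, A', B, X⟩ := v
  have hb0 : 0 < b := by linarith
  unfold nrm at hv
  simp only at hv
  have h1 : |(A : ℝ)| / b ^ 5 ≤ V := (le_max_left _ _).trans ((le_max_left _ _).trans hv)
  have h2 : |(A' : ℝ)| / b ≤ V := (le_max_right _ _).trans ((le_max_left _ _).trans hv)
  have h3 : |(B : ℝ)| * b ≤ V := (le_max_left _ _).trans ((le_max_right _ _).trans hv)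
  have h4 : |(X : ℝ)| * b ^ 5 ≤ V := (le_max_right _ _).trans ((le_max_right _ _).trans hv)
  have hV : 0 ≤ V := le_trans (by positivity) h1
  have q1 : |(A' : ℝ) * B| ≤ V ^ 2 := by
    rw [abs_mul]
    calc |(A' : ℝ)| * |(B : ℝ)| = (|(A' : ℝ)| / b) * (|(B : ℝ)| * b) := by field_simp
      _ ≤ V * V := mul_le_mul h2 h3 (by positivity) hV
      _ = V ^ 2 := by ring
  have q2 : |(A : ℝ) * X| ≤ V ^ 2 := by
    rw [abs_mul]
    calc |(A : ℝ)| * |(X : ℝ)| = (|(A : ℝ)| / b ^ 5) * (|(X : ℝ)| * b ^ 5) := by field_simp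
      _ ≤ V * V := mul_le_mul h1 h4 (by positivity) hV
      _ = V ^ 2 := by ring
  have q3 : |(A : ℝ) * B ^ 5| ≤ V ^ 6 := by
    rw [abs_mul, abs_pow]
    calc |(A : ℝ)| * |(B : ℝ)| ^ 5 = (|(A : ℝ)| / b ^ 5) * (|(B : ℝ)| * b) ^ 5 := by field_simp
      _ ≤ V * V ^ 5 := mul_le_mul h1 (pow_le_pow_left₀ (by positivity) h3 5) (by positivity) hV
      _ = V ^ 6 := by ring
  have q4 : |(A' : ℝ) ^ 5 * X| ≤ V ^ 6 := by
    rw [abs_mul, abs_pow]
    calc |(A' : ℝ)| ^ 5 * |(X : ℝ)| = (|(A' : ℝ)| / b) ^ 5 * (|(X : ℝ)| * b ^ 5) := by field_simp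
      _ ≤ V ^ 5 * V := mul_le_mul (pow_le_pow_left₀ (by positivity) h2 5) h4 (by positivity) (by positivity)
      _ = V ^ 6 := by ring
  have e1 : ((RV (A, A', B, X) : ℤ) : ℝ) = ((A' : ℝ) * B) ^ 3 + 75 * ((A' : ℝ) * B) ^ 2 * ((A : ℝ) * X) -
      625 * ((A' : ℝ) * B) * ((A : ℝ) * X) ^ 2 + 3125 * ((A : ℝ) * X) ^ 3 -
      8 * ((A : ℝ) * B ^ 5 + (A' : ℝ) ^ 5 * X) := by
    unfold RV Rf
    push_cast
    ring
  rw [e1]
  obtain ⟨P, hP⟩ : ∃ P : ℝ, P = (A' : ℝ) * B := ⟨_, rfl⟩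
  obtain ⟨Q, hQ⟩ : ∃ Q : ℝ, Q = (A : ℝ) * X := ⟨_, rfl⟩
  obtain ⟨R, hR⟩ : ∃ R : ℝ, R = (A : ℝ) * B ^ 5 := ⟨_, rfl⟩
  obtain ⟨S, hS⟩ : ∃ S : ℝ, S = (A' : ℝ) ^ 5 * X := ⟨_, rfl⟩
  rw [← hP] at q1
  rw [← hQ] at q2
  rw [← hR] at q3
  rw [← hS] at q4
  rw [← hP, ← hQ, ← hR, ← hS]
  have hV2 : 0 ≤ V ^ 2 := by positivity
  have t1 : |P ^ 3| ≤ V ^ 6 := by
    rw [abs_pow]
    calc |P| ^ 3 ≤ (V ^ 2) ^ 3 := pow_le_pow_left₀ (abs_nonneg _) q1 3
      _ = V ^ 6 := by ring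
  have t2 : |P ^ 2 * Q| ≤ V ^ 6 := by
    rw [abs_mul, abs_pow]
    calc |P| ^ 2 * |Q| ≤ (V ^ 2) ^ 2 * V ^ 2 :=
          mul_le_mul (pow_le_pow_left₀ (abs_nonneg _) q1 2) q2 (abs_nonneg _) (by positivity)
      _ = V ^ 6 := by ring
  have t3 : |P * Q ^ 2| ≤ V ^ 6 := by
    rw [abs_mul, abs_pow]
    calc |P| * |Q| ^ 2 ≤ V ^ 2 * (V ^ 2) ^ 2 :=
          mul_le_mul q1 (pow_le_pow_left₀ (abs_nonneg _) q2 2) (by positivity) (by positivity)
      _ = V ^ 6 := by ring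
  have t4 : |Q ^ 3| ≤ V ^ 6 := by
    rw [abs_pow]
    calc |Q| ^ 3 ≤ (V ^ 2) ^ 3 := pow_le_pow_left₀ (abs_nonneg _) q2 3
      _ = V ^ 6 := by ring
  rw [abs_le] at t1 t2 t3 t4 q3 q4 ⊢
  constructor <;> nlinarith [t1.1, t1.2, t2.1, t2.2, t3.1, t3.2, t4.1, t4.2, q3.1, q3.2, q4.1, q4.2]

/-! ### Sizes -/

theorem EC_V4 (s : ℝ) (u : ℕ) (hs : 1 ≤ s) : (√(2 ^ u) / s ^ 2) ^ 4 * s ^ 8 = 4 ^ u := by
  have h1 : (√((2 : ℝ) ^ u)) ^ 2 = 2 ^ u := Real.sq_sqrt (by positivity)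
  have h2 : (√((2 : ℝ) ^ u)) ^ 4 = 4 ^ u := by
    calc (√((2 : ℝ) ^ u)) ^ 4 = ((√((2 : ℝ) ^ u)) ^ 2) ^ 2 := by ring
      _ = (2 ^ u) ^ 2 := by rw [h1]
      _ = 4 ^ u := by rw [← pow_mul, mul_comm, pow_mul]; norm_num
  have hs0 : s ≠ 0 := by linarith
  rw [div_pow, h2]
  field_simp

theorem EC_V6 (s : ℝ) (u : ℕ) (hs : 1 ≤ s) : (√(2 ^ u) / s ^ 2) ^ 6 ≤ 8 ^ u := by
  have h1 : (√((2 : ℝ) ^ u)) ^ 2 = 2 ^ u := Real.sq_sqrt (by positivity)
  have h2 : (√((2 : ℝ) ^ u)) ^ 6 = 8 ^ u := by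
    calc (√((2 : ℝ) ^ u)) ^ 6 = ((√((2 : ℝ) ^ u)) ^ 2) ^ 3 := by ring
      _ = (2 ^ u) ^ 3 := by rw [h1]
      _ = 8 ^ u := by rw [← pow_mul, mul_comm, pow_mul]; norm_num
  rw [← h2]
  apply pow_le_pow_left₀ (by positivity)
  apply div_le_self (Real.sqrt_nonneg _)
  exact one_le_pow₀ hs

theorem EC_size (b s : ℝ) (u : ℕ) (hM : MR b u s) (q q' : ℕ) (hq : (q : ℝ) ≤ (2 : ℝ) ^ ((u : ℝ) / 50))
    (hq' : q' ^ 5 ≤ q ^ 6) : ((q * q' : ℕ) : ℝ) * b ^ 5 ≤ √(2 ^ u) / s ^ 2 := by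
  obtain ⟨b1, b2, s1, s2⟩ := hM
  have h1 : ((q' : ℕ) : ℝ) ^ 5 ≤ (q : ℝ) ^ 6 := by exact_mod_cast hq'
  have h2 : (q : ℝ) ^ 6 ≤ ((2 : ℝ) ^ (3 * (u : ℝ) / 125)) ^ 5 := by
    calc (q : ℝ) ^ 6 ≤ ((2 : ℝ) ^ ((u : ℝ) / 50)) ^ 6 := pow_le_pow_left₀ (by positivity) hq 6
      _ = ((2 : ℝ) ^ (3 * (u : ℝ) / 125)) ^ 5 := by
          rw [← Real.rpow_mul_natCast (by norm_num), ← Real.rpow_mul_natCast (by norm_num)]
          congr 1
          push_cast
          ring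
  have h3 : (q' : ℝ) ≤ (2 : ℝ) ^ (3 * (u : ℝ) / 125) :=
    (pow_le_pow_iff_left₀ (by positivity) (by positivity) (by norm_num : (5 : ℕ) ≠ 0)).1 (h1.trans h2)
  have h4 : b ^ 5 ≤ (2 : ℝ) ^ ((u : ℝ) / 20) := by
    calc b ^ 5 ≤ ((2 : ℝ) ^ ((u : ℝ) / 100)) ^ 5 := pow_le_pow_left₀ (by linarith) b2 5
      _ = (2 : ℝ) ^ ((u : ℝ) / 20) := by
          rw [← Real.rpow_mul_natCast (by norm_num)]
          congr 1
          push_cast
          ring
  have h5 : s ^ 2 ≤ (2 : ℝ) ^ ((u : ℝ) / 200) := by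
    calc s ^ 2 ≤ ((2 : ℝ) ^ ((u : ℝ) / 400)) ^ 2 := pow_le_pow_left₀ (by linarith) s2 2
      _ = (2 : ℝ) ^ ((u : ℝ) / 200) := by
          rw [← Real.rpow_mul_natCast (by norm_num)]
          congr 1
          push_cast
          ring
  have h6 : √((2 : ℝ) ^ u) = (2 : ℝ) ^ ((u : ℝ) / 2) := by
    rw [Real.sqrt_eq_rpow, ← Real.rpow_natCast, ← Real.rpow_mul (by norm_num)]
    congr 1
    ring
  have hs2 : 0 < s ^ 2 := by positivity
  rw [h6, le_div_iff₀ hs2]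
  push_cast
  calc (q : ℝ) * q' * b ^ 5 * s ^ 2
      ≤ (2 : ℝ) ^ ((u : ℝ) / 50) * (2 : ℝ) ^ (3 * (u : ℝ) / 125) * (2 : ℝ) ^ ((u : ℝ) / 20) * (2 : ℝ) ^ ((u : ℝ) / 200) := by
        apply mul_le_mul _ h5 (by positivity) (by positivity)
        apply mul_le_mul _ h4 (by positivity) (by positivity)
        exact mul_le_mul hq h3 (by positivity) (by positivity)
    _ = (2 : ℝ) ^ ((u : ℝ) / 50 + 3 * (u : ℝ) / 125 + (u : ℝ) / 20 + (u : ℝ) / 200) := by
        rw [Real.rpow_add (by norm_num), Real.rpow_add (by norm_num), Real.rpow_add (by norm_num)]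
    _ ≤ (2 : ℝ) ^ ((u : ℝ) / 2) := by
        apply Real.rpow_le_rpow_of_exponent_le (by norm_num)
        have : (0 : ℝ) ≤ u := Nat.cast_nonneg u
        linarith

theorem EC_count (u L : ℕ) (h : max 1 (u / 100) * L ≤ 3 * u + 12) : L ≤ 1000 := by
  rcases Nat.lt_or_ge u 100 with hu | hu
  · have h1 : u / 100 = 0 := Nat.div_eq_of_lt hu
    rw [h1] at h
    simp at h
    omega
  · have h1 : 1 ≤ u / 100 := by omega
    rw [max_eq_right h1] at h
    by_contra hL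
    have h2 : u / 100 * 1001 ≤ u / 100 * L := Nat.mul_le_mul_left _ (by omega)
    omega

theorem EC_log (u l : ℕ) (hl : l.Prime) (h : u / 100 ≤ Nat.log 2 l) : 2 ^ max 1 (u / 100) ≤ l := by
  rcases Nat.le_total 1 (u / 100) with h1 | h1
  · rw [max_eq_right h1]
    exact (Nat.pow_le_pow_right (by norm_num) h).trans (Nat.pow_log_le_self 2 hl.ne_zero)
  · rw [max_eq_left h1, pow_one]
    exact hl.two_le

theorem EC_Sg (y j q J : ℕ) (hy : 32 ≤ y) (hq : Rgh y q) (hq1 : 1 ≤ q) (hJ : J ∈ Sg j q) : 4 ≤ J := by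
  unfold Sg at hJ
  rw [mem_filter] at hJ
  have hp := hJ.2
  have h1 : bp J q ∣ bp J q := dvd_rfl
  nth_rewrite 2 [bp] at h1
  obtain ⟨i, hi, hpi⟩ := (hp.prime.dvd_finset_prod_iff _).1 h1
  rw [mem_filter] at hi
  have hip := Nat.prime_of_mem_primeFactors hi.1
  have h2 : y < i := hq i hip (Nat.dvd_of_mem_primeFactors hi.1)
  have h3 : i < 2 ^ (J + 1) := by
    rw [← hi.2]
    exact Nat.lt_pow_succ_log_self (by norm_num) i
  by_contra hlt
  have h4 : 2 ^ (J + 1) ≤ 2 ^ 4 := Nat.pow_le_pow_right (by norm_num) (by omega)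
  norm_num at h4
  omega

theorem EC_mem (b : ℝ) (y u : ℕ) (s : ℝ) (p : ℕ × ℕ) (h : p ∈ SU b y u s) :
    1 ≤ p.1 ∧ p.2 < p.1 ∧ Nat.Coprime p.2 p.1 ∧ Rgh y p.1 := by
  classical
  unfold SU at h
  rw [mem_filter] at h
  have h1 := h.1
  unfold PR at h1
  rw [mem_filter, mem_product, mem_Ico] at h1
  exact ⟨(Nat.one_le_two_pow).trans h1.1.1.1, h1.2.1, h1.2.2.1, h1.2.2.2⟩

open Classical in
theorem EC_t (Q : Finset ℕ) (P : ℕ → Finset ℕ) (vs : Finset V4) :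
    ∃ t : Finset (ℕ × ℕ × ℕ × V4),
      (∀ (q a ρ : ℕ) (v : V4), (q, a, ρ, v) ∈ t ↔ q ∈ Q ∧ a ∈ P q ∧ ρ < q * a ∧ v ∈ vs ∧ InG (q * a) ρ v) ∧
      t.card = ∑ q ∈ Q, ∑ a ∈ P q, ∑ ρ ∈ range (q * a), (vs.filter (fun v => InG (q * a) ρ v)).card := by
  refine ⟨Q.biUnion fun q => (P q).biUnion fun a => (range (q * a)).biUnion fun ρ =>
    (vs.filter (fun v => InG (q * a) ρ v)).image (fun v => (q, a, ρ, v)), ?_, ?_⟩
  · intro q a ρ v
    simp only [mem_biUnion, mem_image, mem_filter, mem_range, Prod.mk.injEq]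
    constructor
    · rintro ⟨q1, h1, a1, h2, ρ1, h3, v1, ⟨h4, h5⟩, rfl, rfl, rfl, rfl⟩
      exact ⟨h1, h2, h3, h4, h5⟩
    · rintro ⟨h1, h2, h3, h4, h5⟩
      exact ⟨q, h1, a, h2, ρ, h3, v, ⟨h4, h5⟩, rfl, rfl, rfl, rfl⟩
  · rw [Finset.card_biUnion]
    · apply Finset.sum_congr rfl
      intro q _
      rw [Finset.card_biUnion]
      · apply Finset.sum_congr rfl
        intro a _
        rw [Finset.card_biUnion]
        · apply Finset.sum_congr rfl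
          intro ρ _
          apply Finset.card_image_of_injective
          intro v w h
          simpa using h
        · intro x _ y _ hxy
          rw [Function.onFun, Finset.disjoint_left]
          intro z hz hz'
          rw [mem_image] at hz hz'
          obtain ⟨v, _, rfl⟩ := hz
          obtain ⟨w, _, hw⟩ := hz'
          simp only [Prod.mk.injEq] at hw
          exact hxy hw.2.2.1.symm
      · intro x _ y _ hxy
        rw [Function.onFun, Finset.disjoint_left]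
        intro z hz hz'
        simp only [mem_biUnion, mem_image] at hz hz'
        obtain ⟨ρ, _, v, _, rfl⟩ := hz
        obtain ⟨ρ', _, w, _, hw⟩ := hz'
        simp only [Prod.mk.injEq] at hw
        exact hxy hw.2.1.symm
    · intro x _ y _ hxy
      rw [Function.onFun, Finset.disjoint_left]
      intro z hz hz'
      simp only [mem_biUnion, mem_image] at hz hz'
      obtain ⟨a, _, ρ, _, v, _, rfl⟩ := hz
      obtain ⟨a', _, ρ', _, w, _, hw⟩ := hz'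
      simp only [Prod.mk.injEq] at hw
      exact hxy hw.1.symm

/-! ### The row -/

theorem EC (hPAR : PAR_stmt) (hP4 : P4_stmt) (hP5 : P5_stmt) (hVVP : VVP_stmt) (hN3 : N3_stmt) (hNBC : NBC_stmt)
    (hNRT : NRT_stmt) : EC_stmt := by
  classical
  obtain ⟨C4, y4, hC4, hP4⟩ := hP4
  obtain ⟨n, hn0⟩ : ∃ n : ℕ, n = 1000 := ⟨_, rfl⟩
  obtain ⟨W, hW⟩ : ∃ W : ℕ, W = 3 ^ n * 2 ^ n := ⟨_, rfl⟩
  have hW1 : 1 ≤ W := by rw [hW]; exact Nat.one_le_iff_ne_zero.2 (by positivity)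
  have hW1' : (1 : ℝ) ≤ W := by exact_mod_cast hW1
  refine ⟨(W : ℝ) * (81 * C4), max y4 32, ?_, ?_⟩
  · nlinarith
  intro K hK b y u s hM hy hu
  have hy4 : y4 ≤ y := (le_max_left _ _).trans hy
  have hy32 : 32 ≤ y := (le_max_right _ _).trans hy
  have hb1 := hM.b1
  have hs1 := hM.s1
  obtain ⟨j, hj⟩ : ∃ j : ℕ, j = j0 K u := ⟨_, rfl⟩
  obtain ⟨V, hV⟩ : ∃ V : ℝ, V = √(2 ^ u) / s ^ 2 := ⟨_, rfl⟩
  have hj13 : j ≤ 2 * u / 25 := by
    have h1 : j ≤ u / 13 := by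
      rw [hj]
      unfold j0
      apply Nat.div_le_div_left _ (by norm_num)
      nlinarith [Nat.zero_le (Nat.log 2 u)]
    omega
  suffices key : ∀ T : Finset (ℕ × ℕ), (∀ p ∈ T, p ∈ SU b y u s ∧ Pm p.1 (vv b p.1 p.2) ∧
      (∀ l : ℕ, IsoP y (vv b p.1 p.2) p.1 l → 2 * u / 25 < Nat.log 2 l) ∧
      (prt j p.1 : ℝ) ≤ (2 : ℝ) ^ ((u : ℝ) / 50) ∧
      ∀ l : ℕ, l.Prime → l ∣ p.1 → Nat.log 2 l < j ∨ u / 100 ≤ Nat.log 2 l) →
      (T.card : ℝ) * s ^ 8 ≤ W * (81 * C4) * 4 ^ u by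
    apply key
    intro p hp
    rw [mem_filter] at hp
    obtain ⟨h1, h2, h3⟩ := hp
    unfold SII at h1
    rw [mem_filter] at h1
    obtain ⟨h4, h5⟩ := h1
    unfold SB at h4
    rw [mem_filter] at h4
    rw [← hj] at h2
    exact ⟨h4.1, h4.2.1, h5, h2, by rw [hj]; exact h3⟩
  intro T hdata
  -- the choice of the partners
  have hchoice : ∀ p ∈ T, ∃ q' ρ : ℕ, q' ∈ QP y j (prt j p.1) ∧ ρ < prt j p.1 * q' ∧
      InG (prt j p.1 * q') ρ (vv b p.1 p.2) ∧ p.2 ≡ ρ [MOD prt j p.1] := by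
    intro p hp
    obtain ⟨d1, d2, d3, d4, d5⟩ := hdata p hp
    obtain ⟨m1, m2, m3, m4⟩ := EC_mem b y u s p d1
    obtain ⟨v1, v2, v3, v4, v5, v6, v7⟩ := hVVP b y u s hb1 (by omega) hs1 p d1
    obtain ⟨q', hq', hcop, r', hr', hin⟩ := hPAR y j p.1 p.2 (vv b p.1 p.2) (by omega) m1 m4 m3 v1
      (fun l hl => by have := d3 l hl; omega)
    have hqd : prt j p.1 ∣ p.1 := Dvd.intro _ (EC_mul j p.1 m1)
    have hq1 := (EC_pos j p.1 m1).1
    have hRq : Rgh y (prt j p.1) := fun l hl hld => m4 l hl (hld.trans hqd)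
    have hq'1 := ((hP5 y j (prt j p.1) hq1 hRq hy32).2 q' hq').1
    have hc : Nat.Coprime (prt j p.1) q' := (Nat.Coprime.coprime_dvd_right hqd hcop).symm
    have hcr := (Nat.chineseRemainder hc p.2 r').2
    refine ⟨q', Nat.chineseRemainder hc p.2 r', hq', ?_, ?_, hcr.1.symm⟩
    · exact Nat.chineseRemainder_lt_mul hc p.2 r' (by omega) (by omega)
    · exact hN3 _ _ _ _ _ _ hc (EC_sub v1 hqd) hin hcr.1 hcr.2
  choose! q' ρ hch using hchoice
  obtain ⟨Q, hQ⟩ : ∃ Q : Finset ℕ, Q = T.image (fun p => prt j p.1) := ⟨_, rfl⟩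
  obtain ⟨vs, hvs⟩ : ∃ vs : Finset V4, vs = T.image (fun p => vv b p.1 p.2) := ⟨_, rfl⟩
  have hQd : ∀ q ∈ Q, 1 ≤ q ∧ Rgh y q ∧ (∀ p : ℕ, p.Prime → p ∣ q → Nat.log 2 p < j) ∧
      (q : ℝ) ≤ (2 : ℝ) ^ ((u : ℝ) / 50) := by
    intro q hq
    rw [hQ, mem_image] at hq
    obtain ⟨p, hp, rfl⟩ := hq
    obtain ⟨d1, d2, d3, d4, d5⟩ := hdata p hp
    obtain ⟨m1, m2, m3, m4⟩ := EC_mem b y u s p d1
    exact ⟨(EC_pos j p.1 m1).1, fun l hl hld => m4 l hl (EC_dvd_prt hl hld).1,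
      fun l hl hld => (EC_dvd_prt hl hld).2, d4⟩
  have hvd : ∀ v ∈ vs, RV v ≠ 0 ∧ nrm b v ≤ V := by
    intro v hv
    rw [hvs, mem_image] at hv
    obtain ⟨p, hp, rfl⟩ := hv
    obtain ⟨d1, d2, d3, d4, d5⟩ := hdata p hp
    obtain ⟨v1, v2, v3, v4, v5, v6, v7⟩ := hVVP b y u s hb1 (by omega) hs1 p d1
    exact ⟨v3, by rw [hV]; exact v4⟩
  obtain ⟨t, ht, htc0⟩ := EC_t Q (fun q => QP y j q) vs
  have hcard : T.card ≤ W * t.card := by
    apply Finset.card_le_mul_card_image_of_maps_to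
      (f := fun p => (prt j p.1, q' p, ρ p, vv b p.1 p.2))
    · intro p hp
      obtain ⟨c1, c2, c3, c4⟩ := hch p hp
      rw [ht]
      refine ⟨?_, c1, c2, ?_, c3⟩
      · rw [hQ, mem_image]; exact ⟨p, hp, rfl⟩
      · rw [hvs, mem_image]; exact ⟨p, hp, rfl⟩
    · rintro ⟨q, qq, ρρ, v⟩ ha
      rw [ht] at ha
      obtain ⟨ha1, ha2, ha3, ha4, ha5⟩ := ha
      have hv := hvd v ha4
      rw [hW]
      apply EC_fibre hN3 hNRT j (max 1 (u / 100)) n (3 * u + 12) q ρρ v hv.1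
      · have h0 : V ^ 6 ≤ 8 ^ u := by rw [hV]; exact EC_V6 s u hs1
        have h1 := EC_RV b V v hb1 hv.2
        have h2 : (((RV v).natAbs : ℕ) : ℝ) = |(RV v : ℝ)| := by
          rw [Nat.cast_natAbs, Int.cast_abs]
        have h3 : (((RV v).natAbs : ℕ) : ℝ) ≤ ((2 ^ (3 * u + 12) : ℕ) : ℝ) := by
          rw [h2]
          refine h1.trans ?_
          push_cast
          rw [pow_add, pow_mul]
          norm_num
          have : (0 : ℝ) < 8 ^ u := by positivity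
          linarith
        exact_mod_cast h3
      · intro L hL
        rw [hn0]
        exact EC_count u L hL
      · intro p hp
        rw [mem_filter] at hp
        obtain ⟨hpT, hpa⟩ := hp
        rw [Prod.mk.injEq, Prod.mk.injEq, Prod.mk.injEq] at hpa
        obtain ⟨e1, e0, e2, e3⟩ := hpa
        obtain ⟨d1, d2, d3, d4, d5⟩ := hdata p hpT
        obtain ⟨m1, m2, m3, m4⟩ := EC_mem b y u s p d1
        obtain ⟨v1, v2, v3, v4, v5, v6, v7⟩ := hVVP b y u s hb1 (by omega) hs1 p d1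
        obtain ⟨c1, c2, c3, c4⟩ := hch p hpT
        rw [e3] at d2 v1 v7
        rw [e1, e2] at c4
        refine ⟨m1, m2, m3, fun l hl hld => ?_, v1, d2, v7, e1, c4, ?_⟩
        · have := m4 l hl hld
          omega
        · intro l hl hld
          rcases d5 l hl hld with h | h
          · exact Or.inl h
          · exact Or.inr (EC_log u l hl h)
  -- the number of tuples
  have hV4 : V ^ 4 * s ^ 8 = 4 ^ u := by rw [hV]; exact EC_V4 s u hs1
  have hVnn : 0 ≤ V := by rw [hV]; positivity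
  have htc : (t.card : ℝ) ≤ 81 * V ^ 4 * C4 := by
    rw [htc0]
    push_cast
    have hin : ∀ q ∈ Q, ∑ a ∈ QP y j q, ∑ ρ ∈ range (q * a), (((vs.filter (fun v => InG (q * a) ρ v)).card : ℕ) : ℝ) ≤
        81 * V ^ 4 * ((1 : ℝ) / q * (∏ J ∈ Sg j q, (4 / J : ℝ)) ^ (7 / 8 : ℝ)) := by
      intro q hq
      obtain ⟨q1, q2, q3, q4⟩ := hQd q hq
      obtain ⟨p1, p2⟩ := hP5 y j q q1 q2 hy32
      have hq0 : (0 : ℝ) < q := by exact_mod_cast q1
      have hin2 : ∀ a ∈ QP y j q, ∑ ρ ∈ range (q * a), (((vs.filter (fun v => InG (q * a) ρ v)).card : ℕ) : ℝ) ≤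
          81 * V ^ 4 * ((1 : ℝ) / q) * (1 / a) := by
        intro a ha
        obtain ⟨a1, a2, a3, a4⟩ := p2 a ha
        have ha0 : (0 : ℝ) < a := by exact_mod_cast a1
        have hin3 : ∀ ρ ∈ range (q * a), (((vs.filter (fun v => InG (q * a) ρ v)).card : ℕ) : ℝ) ≤
            81 * V ^ 4 / (((q * a : ℕ) : ℝ)) ^ 2 := by
          intro ρ _
          apply hNBC b V (q * a) ρ _ hb1 (Nat.mul_pos q1 a1)
          · have h5 : ∀ m : ℕ, Rgh y m → Nat.Coprime m 5 := by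
              intro m hm
              rw [Nat.coprime_comm, Nat.Prime.coprime_iff_not_dvd (by norm_num)]
              intro hd
              have := hm 5 (by norm_num) hd
              omega
            exact Nat.Coprime.mul_left (h5 q q2) (h5 a a3)
          · rw [hV]; exact EC_size b s u hM q a q4 a2
          · intro v hv
            rw [mem_filter] at hv
            exact ⟨hv.2, (hvd v hv.1).2⟩
        calc ∑ ρ ∈ range (q * a), (((vs.filter (fun v => InG (q * a) ρ v)).card : ℕ) : ℝ)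
            ≤ ∑ ρ ∈ range (q * a), 81 * V ^ 4 / (((q * a : ℕ) : ℝ)) ^ 2 := Finset.sum_le_sum hin3
          _ = 81 * V ^ 4 * ((1 : ℝ) / q) * (1 / a) := by
              rw [Finset.sum_const, card_range, nsmul_eq_mul]
              push_cast
              field_simp
      calc ∑ a ∈ QP y j q, ∑ ρ ∈ range (q * a), (((vs.filter (fun v => InG (q * a) ρ v)).card : ℕ) : ℝ)
          ≤ ∑ a ∈ QP y j q, 81 * V ^ 4 * ((1 : ℝ) / q) * (1 / a) := Finset.sum_le_sum hin2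
        _ = 81 * V ^ 4 * ((1 : ℝ) / q) * ∑ a ∈ QP y j q, (1 : ℝ) / a := by rw [Finset.mul_sum]
        _ ≤ 81 * V ^ 4 * ((1 : ℝ) / q) * (∏ J ∈ Sg j q, (4 / J : ℝ)) ^ (7 / 8 : ℝ) := by
            apply mul_le_mul_of_nonneg_left _ (by positivity)
            refine p1.trans ?_
            have hpos : 0 < ∏ J ∈ Sg j q, (4 / J : ℝ) := by
              apply Finset.prod_pos
              intro J hJ
              have := EC_Sg y j q J hy32 q2 q1 hJ
              have hJ0 : (0 : ℝ) < J := by exact_mod_cast (by omega : 0 < J)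
              positivity
            have hle : ∏ J ∈ Sg j q, (4 / J : ℝ) ≤ 1 := by
              apply Finset.prod_le_one
              · intro J _
                positivity
              · intro J hJ
                have h4 := EC_Sg y j q J hy32 q2 q1 hJ
                have hJ0 : (0 : ℝ) < J := by exact_mod_cast (by omega : 0 < J)
                rw [div_le_one hJ0]
                exact_mod_cast h4
            calc ∏ J ∈ Sg j q, (4 / J : ℝ) = (∏ J ∈ Sg j q, (4 / J : ℝ)) ^ (1 : ℝ) := (Real.rpow_one _).symm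
              _ ≤ (∏ J ∈ Sg j q, (4 / J : ℝ)) ^ (7 / 8 : ℝ) :=
                  Real.rpow_le_rpow_of_exponent_ge hpos hle (by norm_num)
        _ = 81 * V ^ 4 * ((1 : ℝ) / q * (∏ J ∈ Sg j q, (4 / J : ℝ)) ^ (7 / 8 : ℝ)) := by ring
    calc _ ≤ ∑ q ∈ Q, 81 * V ^ 4 * ((1 : ℝ) / q * (∏ J ∈ Sg j q, (4 / J : ℝ)) ^ (7 / 8 : ℝ)) :=
          Finset.sum_le_sum hin
      _ = 81 * V ^ 4 * ∑ q ∈ Q, ((1 : ℝ) / q * (∏ J ∈ Sg j q, (4 / J : ℝ)) ^ (7 / 8 : ℝ)) := by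
          rw [Finset.mul_sum]
      _ ≤ 81 * V ^ 4 * C4 := by
          apply mul_le_mul_of_nonneg_left _ (by positivity)
          exact hP4 y j hy4 Q (fun q hq => ⟨(hQd q hq).1, (hQd q hq).2.1, (hQd q hq).2.2.1⟩)
  have hcard' : (T.card : ℝ) ≤ W * t.card := by exact_mod_cast hcard
  calc (T.card : ℝ) * s ^ 8 ≤ (W * (81 * V ^ 4 * C4)) * s ^ 8 := by
        apply mul_le_mul_of_nonneg_right _ (by positivity)
        exact hcard'.trans (mul_le_mul_of_nonneg_left htc (by positivity))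
    _ = W * (81 * C4) * (V ^ 4 * s ^ 8) := by ring
    _ = W * (81 * C4) * 4 ^ u := by rw [hV4]

end Pool.Agent.T6
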